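import Pool.Agent.helper32.NN.All

/-!
# MP_3938c6_al: graded algebras

Let `K` be any field and `A` an associative, not necessarily unital, `K`-algebra of dimension greater
than one all of whose proper subalgebras are nilpotent. Suppose that `A` has a grading by a group `G`
(`A = ⊕ 𝒜 g`, `𝒜 g * 𝒜 h ⊆ 𝒜 (g h)`) with a nonzero component `𝒜 g` such that `g` lies outside some
subgroup of finite index of `G`, or `φ g ≠ 0` for some homomorphism `φ` from `G` to the additive group of
the real numbers. Then `A` is nilpotent. No finiteness condition is imposed on the grading.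
-/

set_option autoImplicit false

namespace Pool.Agent.Results.MP_3938c6_al.GradedAlgebras

open Pool.Agent.NN

theorem result (K : Type*) (A : Type*) [Field K] [NonUnitalRing A] [Module K A]
    [IsScalarTower K A A] [SMulCommClass K A A] (hdim : 1 < Module.rank K A)
    (hprop : PropNil K A) (G : Type) [Group G] (𝒜 : G → Submodule K A)
    (hind : iSupIndep 𝒜) (hsup : ⨆ g, 𝒜 g = ⊤)
    (hmul : ∀ g h, ∀ a ∈ 𝒜 g, ∀ b ∈ 𝒜 h, a * b ∈ 𝒜 (g * h))
    (hg : (∃ H : Subgroup G, H.FiniteIndex ∧ ∃ g : G, g ∉ H ∧ 𝒜 g ≠ ⊥) ∨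
      (∃ φ : G →* Multiplicative ℝ, ∃ g : G, φ g ≠ 1 ∧ 𝒜 g ≠ ⊥)) :
    Nilp A :=
  all_GRA K A hdim hprop G 𝒜 hind hsup hmul hg

end Pool.Agent.Results.MP_3938c6_al.GradedAlgebras
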